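import Mathlib

/-!
EHP: the model side.  `gv l φ` is the Green function of the segment `[0,4]` at the point
`z = exp l * exp (i φ)`, in the closed form `cosh gv = (|z| + |z - 4|)/4`.
-/

set_option autoImplicit false
open Real

namespace Pool.Agent.H49.EH

noncomputable section

/-- `|z - 4|` for `z = exp (l + i φ)`. -/
def Dv (l φ : ℝ) : ℝ := √(exp l ^ 2 - 8 * exp l * cos φ + 16)

/-- `cosh` of the Green function of `[0,4]`. -/
def Cv (l φ : ℝ) : ℝ := (exp l + Dv l φ) / 4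

/-- the Green function of `[0,4]` in logarithmic coordinates. -/
def gv (l φ : ℝ) : ℝ := arcosh (Cv l φ)

/-- `sinh` of the Green function of `[0,4]`. -/
def Sv (l φ : ℝ) : ℝ := √(Cv l φ ^ 2 - 1)

theorem rad_nonneg (l φ : ℝ) : 0 ≤ exp l ^ 2 - 8 * exp l * cos φ + 16 := by
  nlinarith [sq_nonneg (exp l - 4 * cos φ), sin_sq_add_cos_sq φ, sq_nonneg (sin φ)]

theorem Dv_sq (l φ : ℝ) : Dv l φ ^ 2 = exp l ^ 2 - 8 * exp l * cos φ + 16 := by
  unfold Dv; exact sq_sqrt (rad_nonneg l φ)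

theorem Dv_nonneg (l φ : ℝ) : 0 ≤ Dv l φ := sqrt_nonneg _

theorem Dv_ge_left (l φ : ℝ) : exp l - 4 ≤ Dv l φ := by
  unfold Dv
  apply le_sqrt_of_sq_le
  nlinarith [cos_le_one φ, exp_pos l]

theorem Dv_ge_right (l φ : ℝ) : 4 - exp l ≤ Dv l φ := by
  unfold Dv
  apply le_sqrt_of_sq_le
  nlinarith [cos_le_one φ, exp_pos l]

theorem Dv_le (l φ : ℝ) : Dv l φ ≤ exp l + 4 := by
  unfold Dv
  rw [sqrt_le_left (by positivity)]
  nlinarith [neg_one_le_cos φ, exp_pos l]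

theorem one_le_Cv (l φ : ℝ) : 1 ≤ Cv l φ := by
  unfold Cv; linarith [Dv_ge_right l φ]

theorem Cv_ge (l φ : ℝ) : exp l / 2 - 1 ≤ Cv l φ := by
  unfold Cv; linarith [Dv_ge_left l φ]

theorem Cv_le (l φ : ℝ) : Cv l φ ≤ exp l / 2 + 1 := by
  unfold Cv; linarith [Dv_le l φ]

/-- the point is off the segment. -/
def Off (l φ : ℝ) : Prop := 4 < exp l ∨ cos φ < 1

theorem Dv_pos {l φ : ℝ} (h : Off l φ) : 0 < Dv l φ := by
  unfold Dv
  apply sqrt_pos.2
  rcases h with h | h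
  · nlinarith [cos_le_one φ, exp_pos l]
  · nlinarith [sq_nonneg (exp l - 4), exp_pos l]

theorem one_lt_Cv {l φ : ℝ} (h : Off l φ) : 1 < Cv l φ := by
  have h0 := exp_pos l
  rcases h with h | h
  · unfold Cv; linarith [Dv_ge_left l φ]
  · have h1 : (4 - exp l) ^ 2 < Dv l φ ^ 2 := by
      rw [Dv_sq]; nlinarith
    have h2 : 4 - exp l < Dv l φ := by
      by_contra h3
      push Not at h3
      have := Dv_nonneg l φ
      nlinarith
    unfold Cv; linarith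

theorem cosh_gv (l φ : ℝ) : cosh (gv l φ) = Cv l φ := cosh_arcosh (one_le_Cv l φ)

theorem sinh_gv (l φ : ℝ) : sinh (gv l φ) = Sv l φ := sinh_arcosh (one_le_Cv l φ)

theorem gv_nonneg (l φ : ℝ) : 0 ≤ gv l φ := arcosh_nonneg (one_le_Cv l φ)

theorem gv_pos {l φ : ℝ} (h : Off l φ) : 0 < gv l φ := arcosh_pos (one_lt_Cv h)

theorem Sv_sq (l φ : ℝ) : Sv l φ ^ 2 = Cv l φ ^ 2 - 1 := by
  unfold Sv; exact sq_sqrt (by nlinarith [one_le_Cv l φ])

theorem Sv_nonneg (l φ : ℝ) : 0 ≤ Sv l φ := sqrt_nonneg _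

theorem Sv_pos {l φ : ℝ} (h : Off l φ) : 0 < Sv l φ := by
  unfold Sv; exact sqrt_pos.2 (by nlinarith [one_lt_Cv h])

/-- `S² = r (r + D - 4 cos φ) / 8`. -/
theorem Sv_sq' (l φ : ℝ) : 8 * Sv l φ ^ 2 = exp l * (exp l + Dv l φ - 4 * cos φ) := by
  rw [Sv_sq]; unfold Cv
  linear_combination (1 / 2) * Dv_sq l φ

/-! ### First derivatives -/

theorem hasDerivAt_Dv_l {l φ : ℝ} (h : Off l φ) :
    HasDerivAt (fun l => Dv l φ) ((exp l ^ 2 - 4 * exp l * cos φ) / Dv l φ) l := by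
  have hpos := Dv_pos h
  have hne : exp l ^ 2 - 8 * exp l * cos φ + 16 ≠ 0 := by
    rw [← Dv_sq]; positivity
  have h1 : HasDerivAt (fun l => exp l ^ 2 - 8 * exp l * cos φ + 16)
      (2 * exp l * exp l - 8 * exp l * cos φ) l := by
    have h2 := ((Real.hasDerivAt_exp l).pow 2).sub
      (((Real.hasDerivAt_exp l).const_mul 8).mul_const (cos φ))
    exact (h2.add_const 16).congr_deriv (by push_cast; ring)
  refine (h1.sqrt hne).congr_deriv ?_
  change _ / (2 * Dv l φ) = _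
  field_simp
  ring

theorem hasDerivAt_Dv_phi {l φ : ℝ} (h : Off l φ) :
    HasDerivAt (fun φ => Dv l φ) (4 * exp l * sin φ / Dv l φ) φ := by
  have hpos := Dv_pos h
  have hne : exp l ^ 2 - 8 * exp l * cos φ + 16 ≠ 0 := by
    rw [← Dv_sq]; positivity
  have h1 : HasDerivAt (fun φ => exp l ^ 2 - 8 * exp l * cos φ + 16)
      (8 * exp l * sin φ) φ := by
    have h2 := (((Real.hasDerivAt_cos φ).const_mul (8 * exp l)).const_sub (exp l ^ 2)).add_const 16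
    exact h2.congr_deriv (by ring)
  refine (h1.sqrt hne).congr_deriv ?_
  change _ / (2 * Dv l φ) = _
  field_simp
  ring

theorem hasDerivAt_Cv_l {l φ : ℝ} (h : Off l φ) :
    HasDerivAt (fun l => Cv l φ) (2 * Sv l φ ^ 2 / Dv l φ) l := by
  have h1 := ((Real.hasDerivAt_exp l).add (hasDerivAt_Dv_l h)).div_const 4
  refine h1.congr_deriv ?_
  have hpos := Dv_pos h
  have := Sv_sq' l φ
  field_simp
  linear_combination -this

theorem hasDerivAt_Cv_phi {l φ : ℝ} (h : Off l φ) :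
    HasDerivAt (fun φ => Cv l φ) (exp l * sin φ / Dv l φ) φ := by
  have h1 := ((hasDerivAt_Dv_phi h).const_add (exp l)).div_const 4
  refine h1.congr_deriv ?_
  ring

/-- `∂_l g_v = 2 S / D`. -/
def gvl (l φ : ℝ) : ℝ := 2 * Sv l φ / Dv l φ

/-- `∂_φ g_v = r sin φ / (D S)`. -/
def gvp (l φ : ℝ) : ℝ := exp l * sin φ / (Dv l φ * Sv l φ)

theorem hasDerivAt_gv_l {l φ : ℝ} (h : Off l φ) :
    HasDerivAt (fun l => gv l φ) (gvl l φ) l := by
  have h1 := (hasDerivAt_arcosh (one_lt_Cv h)).comp l (hasDerivAt_Cv_l h)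
  refine h1.congr_deriv ?_
  have hpos := Dv_pos h
  have hs := Sv_pos h
  change (Sv l φ)⁻¹ * _ = _
  unfold gvl
  field_simp

theorem hasDerivAt_gv_phi {l φ : ℝ} (h : Off l φ) :
    HasDerivAt (fun φ => gv l φ) (gvp l φ) φ := by
  have h1 := (hasDerivAt_arcosh (one_lt_Cv h)).comp φ (hasDerivAt_Cv_phi h)
  refine h1.congr_deriv ?_
  have hpos := Dv_pos h
  have hs := Sv_pos h
  change (Sv l φ)⁻¹ * _ = _
  unfold gvp
  field_simp

theorem hasDerivAt_Sv_l {l φ : ℝ} (h : Off l φ) :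
    HasDerivAt (fun l => Sv l φ) (Cv l φ * gvl l φ) l := by
  have h1 := (Real.hasDerivAt_sinh (gv l φ)).comp l (hasDerivAt_gv_l h)
  rw [cosh_gv] at h1
  refine h1.congr_of_eventuallyEq ?_
  filter_upwards with x using (sinh_gv x φ).symm

theorem hasDerivAt_Sv_phi {l φ : ℝ} (h : Off l φ) :
    HasDerivAt (fun φ => Sv l φ) (Cv l φ * gvp l φ) φ := by
  have h1 := (Real.hasDerivAt_sinh (gv l φ)).comp φ (hasDerivAt_gv_phi h)
  rw [cosh_gv] at h1
  refine h1.congr_of_eventuallyEq ?_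
  filter_upwards with x using (sinh_gv l x).symm

theorem grad_key (l φ : ℝ) :
    4 * (Sv l φ ^ 2) ^ 2 + exp l ^ 2 * sin φ ^ 2 = exp l * Dv l φ * Sv l φ ^ 2 := by
  have h1 := Dv_sq l φ
  have h2 := Sv_sq' l φ
  have h3 := sin_sq_add_cos_sq φ
  linear_combination ((8 * Sv l φ ^ 2 + exp l * (exp l + Dv l φ - 4 * cos φ)) / 16
    - exp l * Dv l φ / 8) * h2 - exp l ^ 2 / 16 * h1 + exp l ^ 2 * h3

/-- `|∇ g_v|² = r / D` in logarithmic coordinates. -/
theorem grad_sq {l φ : ℝ} (h : Off l φ) :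
    gvl l φ ^ 2 + gvp l φ ^ 2 = exp l / Dv l φ := by
  have hpos := Dv_pos h
  have hs := Sv_pos h
  have h3 := grad_key l φ
  unfold gvl gvp
  field_simp
  linear_combination h3

/-! ### Second derivatives -/

/-- `∂_l² g_v`. -/
def gvll (l φ : ℝ) : ℝ := Sv l φ * (exp l * Dv l φ - exp l ^ 2 + 16) / Dv l φ ^ 3

theorem hasDerivAt_gvl_l {l φ : ℝ} (h : Off l φ) :
    HasDerivAt (fun l => gvl l φ) (gvll l φ) l := by
  have hpos := Dv_pos h
  have hs := Sv_pos h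
  have h1 := (((hasDerivAt_Sv_l h).const_mul 2).div (hasDerivAt_Dv_l h) hpos.ne')
  refine h1.congr_deriv ?_
  have h4 := Dv_sq l φ
  unfold gvl gvll Cv
  field_simp
  linear_combination 4 * h4

theorem hasDerivAt_gvp_phi {l φ : ℝ} (h : Off l φ) :
    HasDerivAt (fun φ => gvp l φ) (-gvll l φ) φ := by
  have hpos := Dv_pos h
  have hs := Sv_pos h
  have h1 := ((Real.hasDerivAt_sin φ).const_mul (exp l)).div
    ((hasDerivAt_Dv_phi h).mul (hasDerivAt_Sv_phi h)) (mul_pos hpos hs).ne'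
  refine h1.congr_deriv ?_
  have h4 := Dv_sq l φ
  have h5 := grad_key l φ
  have h6 := Sv_sq' l φ
  have h7 := sin_sq_add_cos_sq φ
  unfold gvp gvll Cv
  simp only [Pi.mul_apply]
  field_simp
  linear_combination (-(16 * Sv l φ ^ 2 + Dv l φ * (exp l + Dv l φ))) * h5
    + Sv l φ ^ 2 * (Dv l φ ^ 2 + 8 * Sv l φ ^ 2) * h6 - 4 * (Sv l φ ^ 2) ^ 2 * h4

/-! ### Smoothness, periodicity, symmetry, monotonicity, range -/

theorem gv_periodic (l φ : ℝ) : gv l (φ + 2 * π) = gv l φ := by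
  unfold gv Cv Dv; rw [cos_add_two_pi]

theorem gv_neg (l φ : ℝ) : gv l (-φ) = gv l φ := by
  unfold gv Cv Dv; rw [cos_neg]

theorem gv_reflect (l φ : ℝ) : gv l (2 * π - φ) = gv l φ := by
  have : cos (2 * π - φ) = cos φ := by rw [cos_two_pi_sub]
  unfold gv Cv Dv; rw [this]

theorem continuous_Dv : Continuous (fun q : ℝ × ℝ => Dv q.1 q.2) := by
  unfold Dv; fun_prop

theorem continuous_gv : Continuous (fun q : ℝ × ℝ => gv q.1 q.2) := by
  have h1 : Continuous (fun q : ℝ × ℝ => Cv q.1 q.2) := by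
    unfold Cv
    exact ((continuous_exp.comp continuous_fst).add continuous_Dv).div_const 4
  unfold gv
  exact continuousOn_arcosh.comp_continuous h1 fun q => one_le_Cv q.1 q.2

theorem contDiffAt_gv {n : WithTop ℕ∞} {l φ : ℝ} (h : Off l φ) :
    ContDiffAt ℝ n (fun q : ℝ × ℝ => gv q.1 q.2) (l, φ) := by
  have hne : exp l ^ 2 - 8 * exp l * cos φ + 16 ≠ 0 := by
    rw [← Dv_sq]; exact (pow_pos (Dv_pos h) 2).ne'
  have h1 : ContDiffAt ℝ n (fun q : ℝ × ℝ => exp q.1 ^ 2 - 8 * exp q.1 * cos q.2 + 16) (l, φ) := by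
    fun_prop
  have h2 : ContDiffAt ℝ n (fun q : ℝ × ℝ => Dv q.1 q.2) (l, φ) := h1.sqrt hne
  have h3 : ContDiffAt ℝ n (fun q : ℝ × ℝ => Cv q.1 q.2) (l, φ) := by
    unfold Cv
    have h4 : ContDiffAt ℝ n (fun q : ℝ × ℝ => exp q.1) (l, φ) := by fun_prop
    exact (h4.add h2).div_const 4
  exact (contDiffAt_arcosh (one_lt_Cv h)).comp (l, φ) h3

/-- monotone in the angle. -/
theorem gv_le_of_cos_le {l φ ψ : ℝ} (h : cos ψ ≤ cos φ) : gv l φ ≤ gv l ψ := by
  unfold gv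
  rw [arcosh_le_arcosh (by linarith [one_le_Cv l φ]) (by linarith [one_le_Cv l ψ])]
  unfold Cv Dv
  have h0 := exp_pos l
  have h1 : √(exp l ^ 2 - 8 * exp l * cos φ + 16) ≤ √(exp l ^ 2 - 8 * exp l * cos ψ + 16) := by
    apply sqrt_le_sqrt; nlinarith
  linarith

theorem gv_monotoneOn (l : ℝ) : MonotoneOn (fun φ => gv l φ) (Set.Icc 0 π) := by
  intro a ha b hb hab
  exact gv_le_of_cos_le (cos_le_cos_of_nonneg_of_le_pi ha.1 hb.2 hab)

/-- maximum over the circle: `cosh M = r/2 + 1`. -/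
def Mv (l : ℝ) : ℝ := arcosh (exp l / 2 + 1)

theorem gv_le_Mv (l φ : ℝ) : gv l φ ≤ Mv l := by
  unfold gv Mv
  rw [arcosh_le_arcosh (by linarith [one_le_Cv l φ]) (by positivity)]
  exact Cv_le l φ

theorem gv_pi (l : ℝ) : gv l π = Mv l := by
  unfold gv Mv Cv Dv
  congr 1
  rw [cos_pi]
  have : √(exp l ^ 2 - 8 * exp l * (-1) + 16) = exp l + 4 := by
    rw [show exp l ^ 2 - 8 * exp l * (-1) + 16 = (exp l + 4) ^ 2 by ring]
    exact sqrt_sq (by positivity)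
  rw [this]; ring

/-- for `r ≥ 4` the minimum over the circle: `cosh m = r/2 - 1`. -/
theorem le_gv_of_four_le {l : ℝ} (h : 4 ≤ exp l) (φ : ℝ) : arcosh (exp l / 2 - 1) ≤ gv l φ := by
  unfold gv
  rw [arcosh_le_arcosh (by linarith) (by linarith [one_le_Cv l φ])]
  exact Cv_ge l φ

theorem gv_zero_of_four_le {l : ℝ} (h : 4 ≤ exp l) : gv l 0 = arcosh (exp l / 2 - 1) := by
  unfold gv Cv Dv
  congr 1
  rw [cos_zero]
  have : √(exp l ^ 2 - 8 * exp l * 1 + 16) = exp l - 4 := by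
    rw [show exp l ^ 2 - 8 * exp l * 1 + 16 = (exp l - 4) ^ 2 by ring]
    exact sqrt_sq (by linarith)
  rw [this]; ring

theorem gv_zero_of_le_four {l : ℝ} (h : exp l ≤ 4) : gv l 0 = 0 := by
  unfold gv Cv Dv
  rw [cos_zero]
  have : √(exp l ^ 2 - 8 * exp l * 1 + 16) = 4 - exp l := by
    rw [show exp l ^ 2 - 8 * exp l * 1 + 16 = (4 - exp l) ^ 2 by ring]
    exact sqrt_sq (by linarith)
  rw [this, show (exp l + (4 - exp l)) / 4 = 1 by ring, arcosh_zero]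

/-- the model range `|2ρ - C| ≤ 1`, `ρ = e^l / 4`. -/
theorem gv_range (l φ : ℝ) : |exp l / 2 - cosh (gv l φ)| ≤ 1 := by
  rw [cosh_gv, abs_le]
  constructor
  · linarith [Cv_le l φ]
  · linarith [Cv_ge l φ]

end

end Pool.Agent.H49.EH
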