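import Pool.Agent.H23.EH.E1
import Pool.Agent.H21.EH.ModA
import Pool.Agent.H49.EH.Mod1

/-!
EHP, block A2 (model side): `κ (gv (exp (l + i φ)))` is `C²` on `ℝ × ℝ` for every `C²` function `κ`
which is constant on `(-∞, t₀]`, `t₀ > 0`; partial derivatives and Laplacian.
-/

set_option autoImplicit false
open Real Filter Topology

namespace Pool.Agent.H49.EH

open Pool.Agent.H23.EH (d1 d2)

noncomputable section

/-- the Green function of `[0,4]` in log-polar coordinates, as a function on `ℝ × ℝ` -/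
def V (q : ℝ × ℝ) : ℝ := gv q.1 q.2

theorem norm_exp_sub_four (l φ : ℝ) :
    ‖Complex.exp ((l : ℂ) + φ * Complex.I) - 4‖ = Dv l φ := by
  unfold Dv
  rw [← sqrt_sq (norm_nonneg _)]
  congr 1
  rw [← Complex.normSq_eq_norm_sq, Complex.normSq_apply]
  rw [Complex.sub_re, Complex.sub_im, Complex.exp_re, Complex.exp_im]
  simp
  nlinarith [sin_sq_add_cos_sq φ]

theorem norm_exp (l φ : ℝ) : ‖Complex.exp ((l : ℂ) + φ * Complex.I)‖ = exp l := by
  rw [Complex.norm_exp]; simp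

/-- agreement with helper21's `gv` -/
theorem gv_exp (l φ : ℝ) :
    Pool.Agent.H21.EH.gv (Complex.exp ((l : ℂ) + φ * Complex.I)) = gv l φ := by
  unfold Pool.Agent.H21.EH.gv gv Cv
  rw [norm_exp_sub_four, norm_exp]

theorem V_eq (q : ℝ × ℝ) :
    V q = Pool.Agent.H21.EH.gv (Complex.exp ((q.1 : ℂ) + q.2 * Complex.I)) := (gv_exp _ _).symm

theorem continuous_V : Continuous V := continuous_gv

theorem V_periodic (l φ : ℝ) : V (l, φ + 2 * π) = V (l, φ) := gv_periodic l φ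

/-- where `gv > 0` we are off the segment -/
theorem off_of_pos {l φ : ℝ} (h : 0 < gv l φ) : Off l φ := by
  by_contra hn
  unfold Off at hn
  push Not at hn
  obtain ⟨h1, h2⟩ := hn
  have h3 : cos φ = 1 := le_antisymm (cos_le_one φ) h2
  have : gv l φ = gv l 0 := by
    unfold gv Cv Dv; rw [h3, cos_zero]
  rw [this, gv_zero_of_le_four h1] at h
  exact lt_irrefl _ h

variable {κ κ' κ'' : ℝ → ℝ} {t₀ : ℝ}

theorem eventually_const (hc : ∀ t ≤ t₀, κ t = κ t₀) {q : ℝ × ℝ} (hq : V q < t₀) :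
    (fun x => κ (V x)) =ᶠ[𝓝 q] fun _ => κ t₀ := by
  have h1 : ∀ᶠ x in 𝓝 q, V x < t₀ := continuous_V.continuousAt.eventually_lt continuousAt_const hq
  filter_upwards [h1] with x hx using hc _ hx.le

/-- `κ ∘ V` is `C^n` on the whole `(l, φ)` plane -/
theorem contDiff_comp_V {n : WithTop ℕ∞} (hκ : ContDiff ℝ n κ) (ht₀ : 0 < t₀)
    (hc : ∀ t ≤ t₀, κ t = κ t₀) : ContDiff ℝ n (fun q => κ (V q)) := by
  rw [contDiff_iff_contDiffAt]
  intro q
  rcases lt_or_ge (V q) t₀ with h | h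
  · exact contDiffAt_const.congr_of_eventuallyEq (eventually_const hc h)
  · have h1 : Off q.1 q.2 := off_of_pos (lt_of_lt_of_le ht₀ h)
    exact hκ.contDiffAt.comp q (contDiffAt_gv h1)

theorem d1_const_nhds {q : ℝ × ℝ} (hc : ∀ t ≤ t₀, κ t = κ t₀) (hq : V q < t₀) :
    d1 (fun x => κ (V x)) q = 0 := by
  unfold d1
  rw [(eventually_const hc hq).fderiv_eq]
  simp

theorem d2_const_nhds {q : ℝ × ℝ} (hc : ∀ t ≤ t₀, κ t = κ t₀) (hq : V q < t₀) :
    d2 (fun x => κ (V x)) q = 0 := by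
  unfold d2
  rw [(eventually_const hc hq).fderiv_eq]
  simp

theorem differentiableAt_V {q : ℝ × ℝ} (h : Off q.1 q.2) : DifferentiableAt ℝ V q :=
  (contDiffAt_gv (n := 1) h).differentiableAt (by norm_num)

/-- partial derivative in `l` through a line -/
theorem d1_eq_of_hasDerivAt {f : ℝ × ℝ → ℝ} {q : ℝ × ℝ} {a : ℝ} (hf : DifferentiableAt ℝ f q)
    (h : HasDerivAt (fun l => f (l, q.2)) a q.1) : d1 f q = a := by
  have h1 : HasFDerivAt (fun l : ℝ => ((l, q.2) : ℝ × ℝ))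
      ((ContinuousLinearMap.id ℝ ℝ).prod (0 : ℝ →L[ℝ] ℝ)) q.1 :=
    (hasFDerivAt_id q.1).prodMk (hasFDerivAt_const q.2 q.1)
  have h2 := (hf.hasFDerivAt : HasFDerivAt f (fderiv ℝ f q) ((q.1, q.2) : ℝ × ℝ)).comp q.1 h1
  have h3 := h2.hasDerivAt
  have h4 := h3.unique h
  unfold d1
  simpa using h4

theorem d2_eq_of_hasDerivAt {f : ℝ × ℝ → ℝ} {q : ℝ × ℝ} {a : ℝ} (hf : DifferentiableAt ℝ f q)
    (h : HasDerivAt (fun φ => f (q.1, φ)) a q.2) : d2 f q = a := by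
  have h1 : HasFDerivAt (fun φ : ℝ => ((q.1, φ) : ℝ × ℝ))
      ((0 : ℝ →L[ℝ] ℝ).prod (ContinuousLinearMap.id ℝ ℝ)) q.2 :=
    (hasFDerivAt_const q.1 q.2).prodMk (hasFDerivAt_id q.2)
  have h2 := (hf.hasFDerivAt : HasFDerivAt f (fderiv ℝ f q) ((q.1, q.2) : ℝ × ℝ)).comp q.2 h1
  have h3 := h2.hasDerivAt
  have h4 := h3.unique h
  unfold d2
  simpa using h4

theorem d1_V {q : ℝ × ℝ} (h : Off q.1 q.2) : d1 V q = gvl q.1 q.2 :=
  d1_eq_of_hasDerivAt (differentiableAt_V h) (hasDerivAt_gv_l h)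

theorem d2_V {q : ℝ × ℝ} (h : Off q.1 q.2) : d2 V q = gvp q.1 q.2 :=
  d2_eq_of_hasDerivAt (differentiableAt_V h) (hasDerivAt_gv_phi h)

theorem eventually_off {q : ℝ × ℝ} (h : Off q.1 q.2) : ∀ᶠ x in 𝓝 q, Off x.1 x.2 := by
  rcases h with h | h
  · have h1 : ContinuousAt (fun x : ℝ × ℝ => exp x.1) q := by fun_prop
    filter_upwards [continuousAt_const.eventually_lt h1 h] with x hx using Or.inl hx
  · have h1 : ContinuousAt (fun x : ℝ × ℝ => cos x.2) q := by fun_prop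
    filter_upwards [h1.eventually_lt continuousAt_const h] with x hx using Or.inr hx

/-- first derivatives of `κ ∘ V` -/
theorem d1_comp_V (hκ : ∀ t, HasDerivAt κ (κ' t) t) {q : ℝ × ℝ} (h : Off q.1 q.2) :
    d1 (fun x => κ (V x)) q = κ' (V q) * gvl q.1 q.2 :=
  d1_eq_of_hasDerivAt ((hκ _).differentiableAt.comp q (differentiableAt_V h))
    ((hκ _).comp q.1 (hasDerivAt_gv_l h))

theorem d2_comp_V (hκ : ∀ t, HasDerivAt κ (κ' t) t) {q : ℝ × ℝ} (h : Off q.1 q.2) :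
    d2 (fun x => κ (V x)) q = κ' (V q) * gvp q.1 q.2 :=
  d2_eq_of_hasDerivAt ((hκ _).differentiableAt.comp q (differentiableAt_V h))
    ((hκ _).comp q.2 (hasDerivAt_gv_phi h))

/-- the Laplacian of `κ ∘ V` off the segment -/
theorem lap_comp_V (hκ2 : ContDiff ℝ 2 κ) (hκ : ∀ t, HasDerivAt κ (κ' t) t)
    (hκ' : ∀ t, HasDerivAt κ' (κ'' t) t) {q : ℝ × ℝ} (h : Off q.1 q.2) :
    d1 (d1 (fun x => κ (V x))) q + d2 (d2 (fun x => κ (V x))) q =
      κ'' (V q) * (exp q.1 / Dv q.1 q.2) := by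
  have hC : ContDiffAt ℝ 2 (fun x => κ (V x)) q :=
    hκ2.contDiffAt.comp q (contDiffAt_gv h)
  have hf : ContDiffAt ℝ 1 (fderiv ℝ (fun x => κ (V x))) q := hC.fderiv_right (by norm_num)
  have hd1 : DifferentiableAt ℝ (d1 (fun x => κ (V x))) q :=
    (hf.differentiableAt (by norm_num)).clm_apply (differentiableAt_const _)
  have hd2 : DifferentiableAt ℝ (d2 (fun x => κ (V x))) q :=
    (hf.differentiableAt (by norm_num)).clm_apply (differentiableAt_const _)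
  have he := eventually_off h
  have e1 : d1 (d1 (fun x => κ (V x))) q =
      κ'' (V q) * gvl q.1 q.2 * gvl q.1 q.2 + κ' (V q) * gvll q.1 q.2 := by
    apply d1_eq_of_hasDerivAt hd1
    have h1 : HasDerivAt (fun l => κ' (gv l q.2) * gvl l q.2)
        (κ'' (V q) * gvl q.1 q.2 * gvl q.1 q.2 + κ' (V q) * gvll q.1 q.2) q.1 :=
      ((hκ' _).comp q.1 (hasDerivAt_gv_l h)).mul (hasDerivAt_gvl_l h)
    refine h1.congr_of_eventuallyEq ?_
    have hc : ContinuousAt (fun l : ℝ => ((l, q.2) : ℝ × ℝ)) q.1 := by fun_prop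
    filter_upwards [hc.eventually he] with l hl
    exact d1_comp_V hκ hl
  have e2 : d2 (d2 (fun x => κ (V x))) q =
      κ'' (V q) * gvp q.1 q.2 * gvp q.1 q.2 + κ' (V q) * (-gvll q.1 q.2) := by
    apply d2_eq_of_hasDerivAt hd2
    have h1 : HasDerivAt (fun φ => κ' (gv q.1 φ) * gvp q.1 φ)
        (κ'' (V q) * gvp q.1 q.2 * gvp q.1 q.2 + κ' (V q) * (-gvll q.1 q.2)) q.2 :=
      ((hκ' _).comp q.2 (hasDerivAt_gv_phi h)).mul (hasDerivAt_gvp_phi h)
    refine h1.congr_of_eventuallyEq ?_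
    have hc : ContinuousAt (fun φ : ℝ => ((q.1, φ) : ℝ × ℝ)) q.2 := by fun_prop
    filter_upwards [hc.eventually he] with φ hφ
    exact d2_comp_V hκ hφ
  rw [e1, e2, ← grad_sq h]
  ring

/-- where `κ t = t` near `V q` the first derivatives are those of `gv` and the Laplacian is `0` -/
theorem d1_comp_V_id {t₁ : ℝ} (ht₁ : 0 ≤ t₁) (hid : ∀ t, t₁ ≤ t → κ t = t) {q : ℝ × ℝ}
    (hq : t₁ < V q) : d1 (fun x => κ (V x)) q = gvl q.1 q.2 := by
  have h : Off q.1 q.2 := off_of_pos (lt_of_le_of_lt ht₁ hq)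
  have h1 : (fun x => κ (V x)) =ᶠ[𝓝 q] V := by
    filter_upwards [continuousAt_const.eventually_lt continuous_V.continuousAt hq] with x hx
    exact hid _ hx.le
  rw [← d1_V h]
  unfold d1
  rw [h1.fderiv_eq]

theorem d2_comp_V_id {t₁ : ℝ} (ht₁ : 0 ≤ t₁) (hid : ∀ t, t₁ ≤ t → κ t = t) {q : ℝ × ℝ}
    (hq : t₁ < V q) : d2 (fun x => κ (V x)) q = gvp q.1 q.2 := by
  have h : Off q.1 q.2 := off_of_pos (lt_of_le_of_lt ht₁ hq)
  have h1 : (fun x => κ (V x)) =ᶠ[𝓝 q] V := by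
    filter_upwards [continuousAt_const.eventually_lt continuous_V.continuousAt hq] with x hx
    exact hid _ hx.le
  rw [← d2_V h]
  unfold d2
  rw [h1.fderiv_eq]

theorem lap_V {q : ℝ × ℝ} (h : Off q.1 q.2) : d1 (d1 V) q + d2 (d2 V) q = 0 := by
  have := lap_comp_V (κ := fun t => t) (κ' := fun _ => 1) (κ'' := fun _ => 0) contDiff_id
    (fun t => hasDerivAt_id t) (fun t => hasDerivAt_const t 1) h
  rw [zero_mul] at this
  exact this

theorem lap_comp_V_id {t₁ : ℝ} (ht₁ : 0 ≤ t₁) (hid : ∀ t, t₁ ≤ t → κ t = t) {q : ℝ × ℝ}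
    (hq : t₁ < V q) :
    d1 (d1 (fun x => κ (V x))) q + d2 (d2 (fun x => κ (V x))) q = 0 := by
  have h : Off q.1 q.2 := off_of_pos (lt_of_le_of_lt ht₁ hq)
  have h1 : (fun x => κ (V x)) =ᶠ[𝓝 q] V := by
    filter_upwards [continuousAt_const.eventually_lt continuous_V.continuousAt hq] with x hx
    exact hid _ hx.le
  have h2 : d1 (fun x => κ (V x)) =ᶠ[𝓝 q] d1 V := by
    filter_upwards [h1.fderiv (𝕜 := ℝ)] with x hx
    unfold d1; rw [hx]
  have h3 : d2 (fun x => κ (V x)) =ᶠ[𝓝 q] d2 V := by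
    filter_upwards [h1.fderiv (𝕜 := ℝ)] with x hx
    unfold d2; rw [hx]
  rw [← lap_V h]
  have e1 : d1 (d1 (fun x => κ (V x))) q = d1 (d1 V) q := by
    show fderiv ℝ (d1 (fun x => κ (V x))) q (1, 0) = fderiv ℝ (d1 V) q (1, 0)
    rw [h2.fderiv_eq]
  have e2 : d2 (d2 (fun x => κ (V x))) q = d2 (d2 V) q := by
    show fderiv ℝ (d2 (fun x => κ (V x))) q (0, 1) = fderiv ℝ (d2 V) q (0, 1)
    rw [h3.fderiv_eq]
  rw [e1, e2]

end

end Pool.Agent.H49.EH
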