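import Pool.Agent.H24.EH.Defs
import Pool.Agent.H49.EH.Mod2

/-!
EHP: `yV_data`, `yV_le`, `le_yV` of helper24's foundation (model side).
-/

set_option autoImplicit false

open MeasureTheory Set Filter Topology
open scoped Real

noncomputable section

namespace Pool.Agent.H49.EH

open Pool.Agent.H23.EH (d1 d2)
open Pool.Agent.H24.EH

theorem yV_eq : yV = V := by
  funext q
  rw [V_eq]
  rfl

theorem yV_apply (l φ : ℝ) : yV (l, φ) = gv l φ := by rw [yV_eq]; rfl

/-- (Y2) -/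
theorem yV_data : YData yV := by
  rw [yV_eq]
  refine ⟨continuous_V, fun x => gv_nonneg _ _, fun l φ => V_periodic l φ, ?_, ?_⟩
  · intro x hx
    exact contDiffAt_gv (off_of_pos hx)
  · intro x hx
    exact lap_V (off_of_pos hx)

theorem yV_le (l φ : ℝ) : yV (l, φ) ≤ Mx l := by
  rw [yV_apply]
  have h := gv_le_Mv l φ
  unfold Mv at h
  unfold Mx rho
  rwa [show 2 * (Real.exp l / 4) + 1 = Real.exp l / 2 + 1 by ring]

theorem le_yV (l φ : ℝ) : mn l ≤ yV (l, φ) := by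
  rw [yV_apply]
  unfold mn rho gv
  rw [Real.arcosh_le_arcosh (lt_of_lt_of_le one_pos (le_max_left _ _))
    (by linarith [one_le_Cv l φ])]
  apply max_le (one_le_Cv l φ)
  have := Cv_ge l φ
  linarith

/-- derivatives of `yV` where it is positive -/
theorem d1_yV {l φ : ℝ} (h : 0 < yV (l, φ)) : d1 yV (l, φ) = gvl l φ := by
  rw [yV_apply] at h
  rw [yV_eq]
  exact d1_V (off_of_pos h)

theorem d2_yV {l φ : ℝ} (h : 0 < yV (l, φ)) : d2 yV (l, φ) = gvp l φ := by
  rw [yV_apply] at h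
  rw [yV_eq]
  exact d2_V (off_of_pos h)

/-- `|∇ yV|² = e^l / |z - 4|` -/
theorem grad_yV {l φ : ℝ} (h : 0 < yV (l, φ)) :
    d1 yV (l, φ) ^ 2 + d2 yV (l, φ) ^ 2 = Real.exp l / ‖ex (l, φ) - 4‖ := by
  rw [d1_yV h, d2_yV h]
  rw [yV_apply] at h
  rw [grad_sq (off_of_pos h)]
  unfold ex
  rw [norm_exp_sub_four]

end Pool.Agent.H49.EH
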